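import Mathlib

/-! Definitions: uniform points on the sphere, the random geometric graph, total variation
distance. -/

set_option autoImplicit false

open MeasureTheory

namespace Pool.Agent.H83.SG

/-- The unit sphere of `ℝ^d`. -/
abbrev Sph (d : ℕ) : Type := Metric.sphere (0 : EuclideanSpace ℝ (Fin d)) 1

/-- The uniform probability measure on the unit sphere of `ℝ^d`: the surface measure
`toSphere` of Lebesgue measure, divided by its total mass. -/
noncomputable def unif (d : ℕ) : Measure (Sph d) :=
  ((volume : Measure (EuclideanSpace ℝ (Fin d))).toSphere Set.univ)⁻¹ •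
    (volume : Measure (EuclideanSpace ℝ (Fin d))).toSphere

/-- The geometric graph of the points `x 0, …, x (n-1)` with threshold `t`: two different
vertices `i`, `j` are joined iff the inner product of `x i` and `x j` is at least `t`. -/
def geoGraph {n d : ℕ} (t : ℝ) (x : Fin n → Sph d) : SimpleGraph (Fin n) where
  Adj i j := i ≠ j ∧
    t ≤ inner ℝ (x i : EuclideanSpace ℝ (Fin d)) (x j : EuclideanSpace ℝ (Fin d))
  symm := ⟨fun i j h => ⟨h.1.symm, by rw [real_inner_comm]; exact h.2⟩⟩
  loopless := ⟨fun _ h => h.1 rfl⟩

/-- The random geometric graph: the law of the geometric graph of `n` independent uniform points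
of the unit sphere of `ℝ^d`. -/
noncomputable def rgg (n d : ℕ) (t : ℝ) : Measure (SimpleGraph (Fin n)) :=
  (Measure.pi fun _ : Fin n => unif d).map (geoGraph t)

/-- The probability that two independent uniform points of the unit sphere of `ℝ^d` have
inner product at least `t`. -/
noncomputable def edgeProb (d : ℕ) (t : ℝ) : ℝ :=
  ((unif d).prod (unif d)).real {x : Sph d × Sph d |
    t ≤ inner ℝ (x.1 : EuclideanSpace ℝ (Fin d)) (x.2 : EuclideanSpace ℝ (Fin d))}

/-- Total variation distance: the supremum of `|μ A - ν A|` over all measurable sets `A`. -/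
noncomputable def tvDist {Ω : Type*} [MeasurableSpace Ω] (μ ν : Measure Ω) : ℝ :=
  ⨆ A : {A : Set Ω // MeasurableSet A}, |μ.real A.1 - ν.real A.1|

end Pool.Agent.H83.SG
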