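import Pool.Agent.H83.SG.Sphere
import Pool.Agent.H83.RGG.Glue

/-! The law of the random geometric graph and the edge probability in Gaussian terms. -/

set_option autoImplicit false

open MeasureTheory ProbabilityTheory Set
open scoped RealInnerProductSpace Pointwise ENNReal

namespace Pool.Agent.H83.SG

open Pool.Agent.H83.RGG

lemma inner_dir {d : ℕ} (hd : 1 ≤ d) {x y : Fin d → ℝ} (hx : x ≠ 0) (hy : y ≠ 0) (t : ℝ) :
    t ≤ inner ℝ (dir hd x : EuclideanSpace ℝ (Fin d)) (dir hd y) ↔
      t * nrm x * nrm y ≤ dt x y := by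
  rw [dir_val hd hx, dir_val hd hy, real_inner_smul_left, real_inner_smul_right,
    ← RotAux.dt_eq]
  have h1 := g2_nrm_pos hx
  have h2 := g2_nrm_pos hy
  rw [show (nrm x)⁻¹ * ((nrm y)⁻¹ * dt x y) = dt x y / (nrm x * nrm y) by
    field_simp]
  rw [le_div_iff₀ (mul_pos h1 h2), mul_assoc]

lemma inner_meas (d : ℕ) (t : ℝ) : MeasurableSet {x : Sph d × Sph d |
    t ≤ inner ℝ (x.1 : EuclideanSpace ℝ (Fin d)) (x.2 : EuclideanSpace ℝ (Fin d))} := by
  apply measurableSet_le measurable_const
  exact (measurable_subtype_coe.comp measurable_fst).inner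
    (measurable_subtype_coe.comp measurable_snd)

theorem edgeProb_eq {d : ℕ} (hd : 1 ≤ d) (t : ℝ) : edgeProb d t = (edgeP d t).toReal := by
  unfold edgeProb
  have hm := dir_meas hd
  rw [unif_eq hd, Measure.map_prod_map _ _ hm hm, Measure.real, Measure.map_apply
    (hm.prodMap hm) (inner_meas d t), g2_edgeP_eq_prod]
  congr 1
  apply measure_congr
  have h0 : ∀ᵐ q ∂((gam d).prod (gam d)), q.1 ≠ 0 ∧ q.2 ≠ 0 := by
    have h1 := g2_ae_ne_zero hd
    have ha : ∀ᵐ q ∂((gam d).prod (gam d)), q.1 ≠ 0 :=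
      Measure.quasiMeasurePreserving_fst.ae h1
    have hb : ∀ᵐ q ∂((gam d).prod (gam d)), q.2 ≠ 0 :=
      Measure.quasiMeasurePreserving_snd.ae h1
    filter_upwards [ha, hb] with q h2 h3 using ⟨h2, h3⟩
  filter_upwards [h0] with q hq
  apply propext
  exact inner_dir hd hq.1 hq.2 t

lemma sg_singleton {n : ℕ} (G : SimpleGraph (Fin n)) : MeasurableSet {G} := by
  have h : ({G} : Set (SimpleGraph (Fin n))) =
      SimpleGraph.edgeSet ⁻¹' ({G.edgeSet} : Set (Set (Sym2 (Fin n)))) := by
    ext H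
    simp only [mem_singleton_iff, mem_preimage]
    exact SimpleGraph.edgeSet_inj.symm
  rw [h]
  exact SimpleGraph.measurable_edgeSet (measurableSet_singleton _)

lemma sg_meas {n : ℕ} (A : Set (SimpleGraph (Fin n))) : MeasurableSet A := by
  have h : A = ⋃ G ∈ A, {G} := by simp
  rw [h]
  exact MeasurableSet.biUnion (Set.to_countable A) (fun G _ => sg_singleton G)

lemma geo_meas {n d : ℕ} (t : ℝ) : Measurable (geoGraph (n := n) (d := d) t) := by
  rw [SimpleGraph.measurable_iff_adj]
  intro u v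
  show Measurable fun ω : Fin n → Sph d => (u ≠ v ∧
    t ≤ inner ℝ (ω u : EuclideanSpace ℝ (Fin d)) (ω v : EuclideanSpace ℝ (Fin d)))
  apply Measurable.and measurable_const
  apply measurableSet_setOfPred.1
  apply measurableSet_le measurable_const
  exact (measurable_subtype_coe.comp (measurable_pi_apply u)).inner
    (measurable_subtype_coe.comp (measurable_pi_apply v))

theorem rgg_singleton {n d : ℕ} (hd : 1 ≤ d) (t : ℝ) (G : SimpleGraph (Fin n)) :
    (rgg n d t).real {G} = ((MeasureTheory.Measure.pi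
                  (fun _ : Fin n × Fin d => ProbabilityTheory.gaussianReal 0 1))
                {g : Fin n × Fin d → ℝ | ∀ i j : Fin n, i ≠ j →
                  (G.Adj i j ↔
                    t * Real.sqrt (∑ k, g (i, k) ^ 2) * Real.sqrt (∑ k, g (j, k) ^ 2)
                      ≤ ∑ k, g (i, k) * g (j, k))}).toReal := by
  have hm := dir_meas hd
  have : IsProbabilityMeasure ((gam d).map (dir hd)) := Measure.isProbabilityMeasure_map hm.aemeasurable
  unfold rgg
  rw [unif_eq hd, ← Measure.pi_map_pi (fun _ => hm.aemeasurable), Measure.real,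
    Measure.map_apply (geo_meas t) (sg_singleton G),
    Measure.map_apply (by fun_prop) (geo_meas t (sg_singleton G))]
  congr 1
  set P : (Fin n → Fin d → ℝ) → Prop := fun x =>
    ∀ i j : Fin n, i ≠ j → (G.Adj i j ↔ t * nrm (x i) * nrm (x j) ≤ dt (x i) (x j)) with hP
  have h1 : {g : Fin n × Fin d → ℝ | ∀ i j : Fin n, i ≠ j →
                  (G.Adj i j ↔
                    t * Real.sqrt (∑ k, g (i, k) ^ 2) * Real.sqrt (∑ k, g (j, k) ^ 2)
                      ≤ ∑ k, g (i, k) * g (j, k))} =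
      (MeasurableEquiv.curry (Fin n) (Fin d) ℝ) ⁻¹' {x | P x} := rfl
  rw [h1, (gl_curry n d).measure_preimage_equiv]
  apply measure_congr
  filter_upwards [gl_ae_ne (n := n) hd] with x hx
  apply propext
  show geoGraph t (fun i => dir hd (x i)) = G ↔ P x
  constructor
  · intro h i j hij
    rw [← h, ← inner_dir hd (hx i) (hx j)]
    show (i ≠ j ∧ _) ↔ _
    exact ⟨fun h => h.2, fun h => ⟨hij, h⟩⟩
  · intro h
    ext i j
    show (i ≠ j ∧ _) ↔ _
    constructor
    · rintro ⟨hij, h'⟩
      exact (h i j hij).2 ((inner_dir hd (hx i) (hx j) t).1 h')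
    · intro h'
      exact ⟨h'.ne, (inner_dir hd (hx i) (hx j) t).2 ((h i j h'.ne).1 h')⟩

end Pool.Agent.H83.SG
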