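import Pool.Agent.H83.SG.Thr
import Pool.Agent.H83.RGG.Final

/-! The total variation distance. -/

set_option autoImplicit false

open MeasureTheory ProbabilityTheory Set Filter
open scoped RealInnerProductSpace Pointwise ENNReal Topology

namespace Pool.Agent.H83.SG

open Pool.Agent.H83.RGG

lemma tvDist_nonneg {Ω : Type*} [MeasurableSpace Ω] (μ ν : Measure Ω) : 0 ≤ tvDist μ ν :=
  Real.iSup_nonneg fun _ => abs_nonneg _

lemma real_eq_sum {n : ℕ} (μ : Measure (SimpleGraph (Fin n))) [IsFiniteMeasure μ]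
    (A : Set (SimpleGraph (Fin n))) [Fintype (SimpleGraph (Fin n))] [DecidablePred (· ∈ A)] :
    μ.real A = ∑ G ∈ Finset.univ.filter (· ∈ A), μ.real {G} := by
  have h : A = ⋃ G ∈ Finset.univ.filter (· ∈ A), ({G} : Set (SimpleGraph (Fin n))) := by
    ext G
    simp
  conv_lhs => rw [h]
  rw [measureReal_biUnion_finset]
  · intro G _ H _ hne
    simpa using hne
  · intro G _
    exact sg_singleton G

lemma tvDist_le {n : ℕ} (μ ν : Measure (SimpleGraph (Fin n))) [IsFiniteMeasure μ]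
    [IsFiniteMeasure ν] : tvDist μ ν ≤ ∑' G : SimpleGraph (Fin n), |μ.real {G} - ν.real {G}| := by
  classical
  unfold tvDist
  rw [tsum_fintype]
  have : Nonempty {A : Set (SimpleGraph (Fin n)) // MeasurableSet A} := ⟨⟨∅, .empty⟩⟩
  apply ciSup_le
  rintro ⟨A, hA⟩
  rw [real_eq_sum μ A, real_eq_sum ν A, ← Finset.sum_sub_distrib]
  refine (Finset.abs_sum_le_sum_abs _ _).trans ?_
  exact Finset.sum_le_sum_of_subset_of_nonneg (Finset.filter_subset _ _)
    (fun _ _ _ => abs_nonneg _)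

lemma er_singleton {n : ℕ} {p : ℝ} (h0 : 0 ≤ p) (h1 : p ≤ 1) (G : SimpleGraph (Fin n)) :
    (SimpleGraph.binomialRandom (Fin n) (Set.projIcc 0 1 zero_le_one p)).real {G} =
      p ^ G.edgeSet.ncard * (1 - p) ^ (n.choose 2 - G.edgeSet.ncard) := by
  rw [Set.projIcc_of_mem zero_le_one ⟨h0, h1⟩, Measure.real, SimpleGraph.binomialRandom_singleton]
  simp

lemma d_large {d : ℕ → ℕ}
    (hd : Tendsto (fun n : ℕ => (d n : ℝ) / (Real.log n) ^ 3) atTop atTop) :
    ∀ᶠ n : ℕ in atTop, 2 ≤ d n := by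
  have hlog : ∀ᶠ n : ℕ in atTop, 1 ≤ Real.log (n : ℝ) :=
    (Real.tendsto_log_atTop.comp tendsto_natCast_atTop_atTop).eventually_ge_atTop 1
  filter_upwards [hlog, hd.eventually_ge_atTop 2] with n h1 h2
  have h3 : (1 : ℝ) ≤ Real.log n ^ 3 := one_le_pow₀ h1
  rw [le_div_iff₀ (by linarith)] at h2
  have h4 : (2 : ℝ) ≤ d n := by nlinarith
  exact_mod_cast h4

theorem main (c : ℝ) (hc : 0 < c) (d : ℕ → ℕ)
    (hd : Tendsto (fun n : ℕ => (d n : ℝ) / Real.log n ^ 3) atTop atTop) :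
    (∀ᶠ n : ℕ in atTop, ∃ t : ℝ, edgeProb (d n) t = c / n) ∧
    ∀ t : ℕ → ℝ, (∀ᶠ n : ℕ in atTop, edgeProb (d n) (t n) = c / n) →
      Tendsto (fun n : ℕ => tvDist (rgg n (d n) (t n))
        (SimpleGraph.binomialRandom (Fin n) (Set.projIcc 0 1 zero_le_one (c / n)))) atTop (𝓝 0) := by
  have hd2 := d_large hd
  have hnc : ∀ᶠ n : ℕ in atTop, c < (n : ℝ) :=
    tendsto_natCast_atTop_atTop.eventually_gt_atTop c
  refine ⟨?_, ?_⟩
  · filter_upwards [hd2, hnc] with n h2 hn
    have hn0 : (0 : ℝ) < n := hc.trans hn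
    exact exists_threshold h2 (div_pos hc hn0) ((div_lt_one hn0).2 hn)
  · intro t ht
    have hfr := final c hc d hd t (by
      filter_upwards [hd2, ht] with n h2 h
      have h1 : 1 ≤ d n := by omega
      rw [edgeProb_eq h1] at h
      have h3 : edgeP (d n) (t n) ≠ ⊤ := measure_ne_top _ _
      have h4 : edgeP (d n) (t n) = ENNReal.ofReal (c / n) := by
        rw [← h, ENNReal.ofReal_toReal h3]
      exact h4)
    have hfr2 := hfr.const_mul 2
    rw [mul_zero] at hfr2
    refine squeeze_zero' (Eventually.of_forall fun n => tvDist_nonneg _ _) ?_ hfr2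
    filter_upwards [hd2, hnc] with n h2 hn
    have hn0 : (0 : ℝ) < n := hc.trans hn
    have h1 : 1 ≤ d n := by omega
    have hprob : IsProbabilityMeasure (unif (d n)) := unif_prob h1
    have : IsProbabilityMeasure (rgg n (d n) (t n)) :=
      Measure.isProbabilityMeasure_map (geo_meas _).aemeasurable
    refine (tvDist_le _ _).trans (le_of_eq ?_)
    rw [← mul_assoc, show (2 : ℝ) * (1 / 2) = 1 by norm_num, one_mul]
    congr 1
    funext G
    rw [rgg_singleton h1, er_singleton (div_nonneg hc.le hn0.le) ((div_le_one hn0).2 hn.le)]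

end Pool.Agent.H83.SG
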