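import Pool.Agent.H83.SG.Unique
import Pool.Agent.H83.RGG.KernG
import Pool.Agent.H83.RGG.Rot

/-! The uniform measure on the sphere is the law of the direction of a Gaussian vector. -/

set_option autoImplicit false

open MeasureTheory ProbabilityTheory Set
open scoped RealInnerProductSpace Pointwise ENNReal

namespace Pool.Agent.H83.SG

open Pool.Agent.H83.RGG

section surface

variable {E : Type*} [NormedAddCommGroup E] [InnerProductSpace ℝ E] [FiniteDimensional ℝ E]
  [MeasurableSpace E] [BorelSpace E]

lemma surf_apply {B : Set E} (hB : MeasurableSet B) :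
    ((volume : Measure E).toSphere.map Subtype.val) B =
      Module.finrank ℝ E * volume (Ioo (0 : ℝ) 1 • (Metric.sphere (0 : E) 1 ∩ B)) := by
  rw [Measure.map_apply measurable_subtype_coe hB,
    Measure.toSphere_apply' _ (measurable_subtype_coe hB)]
  congr 4
  exact Subtype.image_preimage_val _ _

lemma surf_inv : RotInv ((volume : Measure E).toSphere.map Subtype.val) := by
  intro f
  have hf : Measurable f := f.continuous.measurable
  ext B hB
  rw [Measure.map_apply hf hB, surf_apply (hf hB), surf_apply hB]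
  congr 1
  have h1 : Ioo (0 : ℝ) 1 • (Metric.sphere (0 : E) 1 ∩ f ⁻¹' B) =
      f ⁻¹' (Ioo (0 : ℝ) 1 • (Metric.sphere (0 : E) 1 ∩ B)) := by
    ext x
    simp only [mem_smul, mem_preimage, mem_inter_iff, Metric.mem_sphere, dist_zero_right]
    constructor
    · rintro ⟨r, hr, y, ⟨hy, hyB⟩, rfl⟩
      exact ⟨r, hr, f y, ⟨by rw [f.norm_map, hy], hyB⟩, by rw [map_smul]⟩
    · rintro ⟨r, hr, y, ⟨hy, hyB⟩, h⟩
      refine ⟨r, hr, f.symm y, ⟨by rw [f.symm.norm_map, hy], by simpa using hyB⟩, ?_⟩
      rw [← map_smul, h]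
      simp
  rw [h1]
  exact f.measurePreserving.measure_preimage_emb f.toHomeomorph.measurableEmbedding _

end surface

lemma unif_map (d : ℕ) : (unif d).map Subtype.val =
    ((volume : Measure (EuclideanSpace ℝ (Fin d))).toSphere univ)⁻¹ •
      ((volume : Measure (EuclideanSpace ℝ (Fin d))).toSphere.map Subtype.val) := by
  unfold unif
  rw [Measure.map_smul]

lemma unif_inv (d : ℕ) : RotInv ((unif d).map Subtype.val) := by
  intro f
  rw [unif_map, Measure.map_smul, surf_inv f]

lemma unif_prob {d : ℕ} (hd : 1 ≤ d) : IsProbabilityMeasure (unif d) := by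
  have : Nonempty (Fin d) := ⟨⟨0, hd⟩⟩
  constructor
  unfold unif
  rw [Measure.smul_apply, smul_eq_mul]
  apply ENNReal.inv_mul_cancel
  · intro h
    rw [Measure.measure_univ_eq_zero] at h
    exact Measure.toSphere_ne_zero _ h
  · exact measure_ne_top _ _

/-- the direction of a vector (a fixed direction for the zero vector) -/
noncomputable def dir {d : ℕ} (hd : 1 ≤ d) (x : Fin d → ℝ) : Sph d :=
  open Classical in
  if h : x = 0 then ⟨EuclideanSpace.single ⟨0, hd⟩ 1, by simp⟩
  else ⟨(nrm x)⁻¹ • WithLp.toLp 2 x, by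
    rw [mem_sphere_zero_iff_norm, norm_smul, ← RotAux.nrm_eq, norm_inv,
      Real.norm_of_nonneg (g2_nrm_nonneg x), inv_mul_cancel₀ (g2_nrm_pos h).ne']⟩

lemma dir_val {d : ℕ} (hd : 1 ≤ d) {x : Fin d → ℝ} (hx : x ≠ 0) :
    (dir hd x : EuclideanSpace ℝ (Fin d)) = (nrm x)⁻¹ • WithLp.toLp 2 x := by
  unfold dir
  rw [dif_neg hx]

lemma dir_meas {d : ℕ} (hd : 1 ≤ d) : Measurable (dir hd) := by
  classical
  apply measurable_comap_iff.2
  have h : (Subtype.val ∘ dir hd : (Fin d → ℝ) → EuclideanSpace ℝ (Fin d)) = fun x =>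
      if x = 0 then EuclideanSpace.single ⟨0, hd⟩ 1 else (nrm x)⁻¹ • WithLp.toLp 2 x := by
    funext x
    by_cases hx : x = 0
    · simp [dir, hx]
    · simp [dir, hx]
  rw [h]
  refine Measurable.ite (measurableSet_singleton 0) measurable_const ?_
  exact (g2_measurable_nrm.inv).smul (by fun_prop)

lemma gam_toLp (d : ℕ) : (gam d).map (WithLp.toLp 2) = stdGaussian (EuclideanSpace ℝ (Fin d)) :=
  map_pi_eq_stdGaussian

lemma dir_inv {d : ℕ} (hd : 1 ≤ d) : RotInv (((gam d).map (dir hd)).map Subtype.val) := by
  intro f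
  have hto : Measurable (WithLp.toLp 2 : (Fin d → ℝ) → EuclideanSpace ℝ (Fin d)) := by fun_prop
  have hm := dir_meas hd
  have hf : Measurable f := f.continuous.measurable
  -- the direction in terms of the Euclidean vector
  set D : EuclideanSpace ℝ (Fin d) → EuclideanSpace ℝ (Fin d) := fun v => ‖v‖⁻¹ • v with hD
  have hDm : Measurable D := by
    have : Measurable (fun v : EuclideanSpace ℝ (Fin d) => ‖v‖) := measurable_norm
    exact this.inv.smul measurable_id
  have h1 : ((gam d).map (dir hd)).map Subtype.val =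
      (stdGaussian (EuclideanSpace ℝ (Fin d))).map D := by
    rw [← gam_toLp, Measure.map_map hDm hto, Measure.map_map measurable_subtype_coe hm]
    apply Measure.map_congr
    filter_upwards [g2_ae_ne_zero hd] with x hx
    simp only [Function.comp_apply, hD]
    rw [dir_val hd hx, ← RotAux.nrm_eq]
  rw [h1, Measure.map_map hf hDm]
  have h2 : f ∘ D = D ∘ f := by
    funext v
    simp [hD]
  rw [h2, ← Measure.map_map hDm hf, stdGaussian_map]

/-- the uniform measure is the law of the direction of a Gaussian vector -/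
theorem unif_eq {d : ℕ} (hd : 1 ≤ d) : unif d = (gam d).map (dir hd) := by
  have := unif_prob hd
  have hm := dir_meas hd
  have : IsProbabilityMeasure ((gam d).map (dir hd)) := Measure.isProbabilityMeasure_map hm.aemeasurable
  have hv : Measurable (Subtype.val : Sph d → EuclideanSpace ℝ (Fin d)) := measurable_subtype_coe
  have : IsProbabilityMeasure ((unif d).map Subtype.val) :=
    Measure.isProbabilityMeasure_map hv.aemeasurable
  have : IsProbabilityMeasure (((gam d).map (dir hd)).map Subtype.val) :=
    Measure.isProbabilityMeasure_map hv.aemeasurable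
  have hs : ∀ μ : Measure (Sph d), ∀ᵐ y ∂(μ.map Subtype.val), ‖y‖ = 1 := by
    intro μ
    rw [ae_map_iff hv.aemeasurable (by exact measurableSet_eq_fun measurable_norm measurable_const)]
    refine Filter.Eventually.of_forall (fun x => ?_)
    exact mem_sphere_zero_iff_norm.1 x.2
  have h := rotInv_unique (unif_inv d) (dir_inv hd) (hs _) (hs _)
  have he : MeasurableEmbedding (Subtype.val : Sph d → EuclideanSpace ℝ (Fin d)) :=
    MeasurableEmbedding.subtype_coe (Metric.isClosed_sphere.measurableSet)
  ext B hB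
  have hB' := he.measurableSet_image.2 hB
  have h3 := congrArg (fun ρ => ρ (Subtype.val '' B)) h
  beta_reduce at h3
  rw [Measure.map_apply hv hB', Measure.map_apply hv hB',
    Set.preimage_image_eq _ Subtype.val_injective] at h3
  exact h3

end Pool.Agent.H83.SG
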