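import Pool.Agent.H83.SG.Law

/-! Thresholds exist: the inner product of two uniform points has no atoms. -/

set_option autoImplicit false

open MeasureTheory ProbabilityTheory Set Filter
open scoped RealInnerProductSpace Pointwise ENNReal Topology

namespace Pool.Agent.H83.SG

open Pool.Agent.H83.RGG

/-- the angle to a coordinate axis has no atoms -/
lemma noatom_gam {m : ℕ} (s : ℝ) :
    (gam (m + 2)) {w | s * nrm w = w 1} = 0 := by
  by_cases hs : s = 0
  · subst hs
    have h : {w : Fin (m + 2) → ℝ | 0 * nrm w = w 1} =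
        (fun w => w 1) ⁻¹' {0} := by
      ext w
      simp [eq_comm]
    rw [h]
    have h2 := measurePreserving_eval (fun _ : Fin (m + 2) => gaussianReal 0 1) (1 : Fin (m + 2))
    have h3 := h2.measure_preimage (measurableSet_singleton (0 : ℝ)).nullMeasurableSet
    unfold gam
    rw [show (fun w : Fin (m + 2) → ℝ => w 1) = Function.eval (1 : Fin (m + 2)) from rfl, h3]
    have : NullSingletonClass (gaussianReal 0 1) :=
      nullSingletonClass_gaussianReal (by norm_num)
    exact measure_singleton _
  · have hmp := measurePreserving_piFinSuccAbove (fun _ : Fin (m + 2) => gaussianReal 0 1) 0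
    set S : Set (ℝ × (Fin (m + 1) → ℝ)) :=
      {q | s * Real.sqrt (q.1 ^ 2 + ∑ k, q.2 k ^ 2) = q.2 0} with hS
    have hSm : MeasurableSet S := by
      apply measurableSet_eq_fun
      · apply Measurable.const_mul
        apply Measurable.sqrt
        fun_prop
      · fun_prop
    have h : {w : Fin (m + 2) → ℝ | s * nrm w = w 1} =
        (MeasurableEquiv.piFinSuccAbove (fun _ => ℝ) 0) ⁻¹' S := by
      ext w
      simp only [hS, mem_ofPred_eq, mem_preimage, MeasurableEquiv.piFinSuccAbove_apply, nrm,
        Fin.sum_univ_succ (n := m + 1)]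
      rfl
    unfold gam
    rw [h, hmp.measure_preimage hSm.nullMeasurableSet, Measure.prod_apply_symm hSm]
    rw [lintegral_eq_zero_iff' (measurable_measure_prodMk_right hSm).aemeasurable]
    refine Filter.Eventually.of_forall (fun v => ?_)
    have hfin : ((fun a => (a, v)) ⁻¹' S).Finite := by
      refine Set.Finite.subset (s := {Real.sqrt ((v 0 / s) ^ 2 - ∑ k, v k ^ 2),
        -Real.sqrt ((v 0 / s) ^ 2 - ∑ k, v k ^ 2)}) (by simp) ?_
      intro a ha
      simp only [hS, mem_preimage, mem_ofPred_eq] at ha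
      have h1 : Real.sqrt (a ^ 2 + ∑ k, v k ^ 2) = v 0 / s := by
        field_simp
        linarith
      have h0 : 0 ≤ a ^ 2 + ∑ k, v k ^ 2 := by positivity
      have h2 : a ^ 2 = (v 0 / s) ^ 2 - ∑ k, v k ^ 2 := by
        rw [← h1, Real.sq_sqrt h0]
        ring
      rw [← h2, Real.sqrt_sq_eq_abs]
      simp only [mem_insert_iff, mem_singleton_iff]
      rcases abs_choice a with h | h <;> rw [h]
      · left; rfl
      · right; ring
    have : NullSingletonClass (gaussianReal 0 1) :=
      nullSingletonClass_gaussianReal (by norm_num)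
    exact hfin.measure_zero _

/-- a level of a tail function without atoms is attained -/
lemma exists_level {Ω : Type*} [MeasurableSpace Ω] (μ : Measure Ω) [IsProbabilityMeasure μ]
    {f : Ω → ℝ} (hf : Measurable f) (hn : ∀ s, μ {x | s = f x} = 0)
    (hb : ∀ x, |f x| ≤ 1) {p : ℝ} (hp : 0 < p) (hp1 : p < 1) :
    ∃ t : ℝ, μ.real {x | t ≤ f x} = p := by
  classical
  set F : ℝ → Ω → ℝ := fun t x => if t ≤ f x then 1 else 0 with hF
  have hm : ∀ t, MeasurableSet {x | t ≤ f x} := fun t => measurableSet_le measurable_const hf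
  have hFi : ∀ t, μ.real {x | t ≤ f x} = ∫ x, F t x ∂μ := by
    intro t
    rw [← integral_indicator_one (hm t)]
    congr 1
  have hc : Continuous (fun t => ∫ x, F t x ∂μ) := by
    rw [continuous_iff_continuousAt]
    intro t0
    apply continuousAt_of_dominated (bound := fun _ => (1 : ℝ))
    · refine Eventually.of_forall (fun t => ?_)
      exact (Measurable.ite (hm t) measurable_const measurable_const).aestronglyMeasurable
    · refine Eventually.of_forall (fun t => Eventually.of_forall (fun x => ?_))
      simp only [hF]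
      split_ifs <;> simp
    · exact integrable_const _
    · have h0 : ∀ᵐ x ∂μ, t0 ≠ f x := by
        rw [ae_iff]
        simpa using hn t0
      filter_upwards [h0] with x hx
      rcases lt_or_gt_of_ne hx with h | h
      · apply ContinuousAt.congr (f := fun _ => (1 : ℝ)) continuousAt_const
        filter_upwards [Iio_mem_nhds h] with t ht
        simp only [hF]
        rw [if_pos (le_of_lt ht)]
      · apply ContinuousAt.congr (f := fun _ => (0 : ℝ)) continuousAt_const
        filter_upwards [Ioi_mem_nhds h] with t ht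
        simp only [hF]
        rw [if_neg (not_le.2 ht)]
  have h1 : (∫ x, F (-1) x ∂μ) = 1 := by
    rw [← hFi]
    have : {x | (-1 : ℝ) ≤ f x} = univ := by
      ext x
      simpa using (abs_le.1 (hb x)).1
    rw [this]
    simp
  have h2 : (∫ x, F 2 x ∂μ) = 0 := by
    rw [← hFi]
    have : {x | (2 : ℝ) ≤ f x} = ∅ := by
      ext x
      simp only [mem_ofPred_eq, mem_empty_iff_false, iff_false, not_le]
      have := (abs_le.1 (hb x)).2
      linarith
    rw [this]
    simp
  have h3 := intermediate_value_Icc' (show (-1 : ℝ) ≤ 2 by norm_num) hc.continuousOn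
  rw [h1, h2] at h3
  obtain ⟨t, _, ht⟩ := h3 ⟨hp.le, hp1.le⟩
  exact ⟨t, by rw [hFi]; exact ht⟩

/-- thresholds exist -/
theorem exists_threshold {d : ℕ} (hd : 2 ≤ d) {p : ℝ} (hp : 0 < p) (hp1 : p < 1) :
    ∃ t : ℝ, edgeProb d t = p := by
  obtain ⟨m, rfl⟩ : ∃ m, d = m + 2 := ⟨d - 2, by omega⟩
  have h1 : 1 ≤ m + 2 := by omega
  set f : (Fin (m + 2) → ℝ) → ℝ := fun w => w 1 / nrm w with hf
  have hz := g2_ae_ne_zero h1
  have hfm : Measurable f := (measurable_pi_apply 1).div g2_measurable_nrm
  have hle : ∀ w : Fin (m + 2) → ℝ, |w 1| ≤ nrm w := by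
    intro w
    unfold nrm
    rw [← Real.sqrt_sq_eq_abs]
    apply Real.sqrt_le_sqrt
    exact Finset.single_le_sum (f := fun k => w k ^ 2) (fun k _ => sq_nonneg _)
      (Finset.mem_univ 1)
  have hb : ∀ w, |f w| ≤ 1 := by
    intro w
    simp only [hf]
    rw [abs_div, abs_of_nonneg (g2_nrm_nonneg w)]
    exact div_le_one_of_le₀ (hle w) (g2_nrm_nonneg w)
  have hn : ∀ s, (gam (m + 2)) {w | s = f w} = 0 := by
    intro s
    rw [← noatom_gam (m := m) s]
    apply measure_congr
    filter_upwards [hz] with w hw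
    apply propext
    show s = w 1 / nrm w ↔ s * nrm w = w 1
    rw [eq_div_iff (g2_nrm_pos hw).ne']
  obtain ⟨t, ht⟩ := exists_level (gam (m + 2)) hfm hn hb hp hp1
  refine ⟨t, ?_⟩
  rw [edgeProb_eq h1, edgeP_eq (1 : Fin (m + 2)), ← ht]
  unfold P1 Measure.real
  congr 1
  apply measure_congr
  filter_upwards [hz] with w hw
  apply propext
  show t * nrm w ≤ w 1 ↔ t ≤ w 1 / nrm w
  rw [le_div_iff₀ (g2_nrm_pos hw)]

end Pool.Agent.H83.SG
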