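import Pool.Agent.H83.SG.Defs

/-! A rotation invariant probability measure concentrated on the unit sphere is unique. -/

set_option autoImplicit false

open MeasureTheory ProbabilityTheory Complex
open scoped RealInnerProductSpace

namespace Pool.Agent.H83.SG

variable {E : Type*} [NormedAddCommGroup E] [InnerProductSpace ℝ E] [FiniteDimensional ℝ E]
  [MeasurableSpace E] [BorelSpace E]

/-- invariance under all linear isometries -/
def RotInv (μ : Measure E) : Prop := ∀ f : E ≃ₗᵢ[ℝ] E, μ.map f = μ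

lemma charFun_inv {μ : Measure E} (hμ : RotInv μ) (f : E ≃ₗᵢ[ℝ] E) (t : E) :
    charFun μ (f t) = charFun μ t := by
  rw [charFun_apply, charFun_apply]
  conv_lhs => rw [← hμ f]
  rw [integral_map (by fun_prop) (by fun_prop)]
  simp

lemma charFun_eq_of_norm {μ : Measure E} (hμ : RotInv μ) {s t : E} (h : ‖s‖ = ‖t‖) :
    charFun μ s = charFun μ t := by
  have := charFun_inv hμ (Submodule.reflection (ℝ ∙ (s - t))ᗮ) s
  rw [Submodule.reflection_sub h] at this
  exact this.symm

lemma charFun_eq_int {μ ν : Measure E} [IsProbabilityMeasure μ] [IsProbabilityMeasure ν]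
    (hμ : RotInv μ) (hν : ∀ᵐ y ∂ν, ‖y‖ = 1) (t : E) :
    charFun μ t = ∫ y, ∫ x, cexp (⟪x, y⟫ * (‖t‖ * I)) ∂μ ∂ν := by
  have h1 : ∀ᵐ y ∂ν, (∫ x, cexp (⟪x, y⟫ * (‖t‖ * I)) ∂μ) = charFun μ t := by
    filter_upwards [hν] with y hy
    have h2 : charFun μ (‖t‖ • y) = charFun μ t := by
      apply charFun_eq_of_norm hμ
      rw [norm_smul, hy, mul_one, norm_norm]
    rw [← h2, charFun_apply]
    congr 1
    funext x
    congr 1
    rw [real_inner_smul_right]
    push_cast
    ring
  rw [integral_congr_ae h1]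
  simp

theorem rotInv_unique {μ ν : Measure E} [IsProbabilityMeasure μ] [IsProbabilityMeasure ν]
    (hμ : RotInv μ) (hν : RotInv ν) (hμ1 : ∀ᵐ y ∂μ, ‖y‖ = 1) (hν1 : ∀ᵐ y ∂ν, ‖y‖ = 1) :
    μ = ν := by
  apply Measure.ext_of_charFun
  funext t
  rw [charFun_eq_int hμ hν1 t, charFun_eq_int hν hμ1 t]
  rw [integral_integral_swap]
  · congr 1
    funext x
    congr 1
    funext y
    rw [real_inner_comm]
  · refine Integrable.of_bound (C := 1) ?_ ?_
    · apply Measurable.aestronglyMeasurable
      fun_prop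
    · refine Filter.Eventually.of_forall (fun q => ?_)
      simp only [Function.uncurry]
      rw [Complex.norm_exp]
      simp

end Pool.Agent.H83.SG
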